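import Pool.Agent.Q274.BKL.Stm
import Pool.Agent.Y698.Two

/-!
# The congruence between the numbers of weight two and the numbers of weight zero (BKL-27, K3)
-/

set_option autoImplicit false
set_option linter.unusedVariables false

open Filter
open scoped Topology PeriodPair

namespace Pool.Agent.Q174.BKL

open H667R3 Pool.Agent.TH936.CM
open Pool.Agent.Y698 (RR aR bR fR al bl tA tB LD e7 nR nI Inq qch al_sq al_mul_bl aR_coe bR_coe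
  v_bl v_two v_two_lt bl_ne)
open Pool.Agent.Q274.BKL

/-- the coordinate `y` of `bl * z` times the square of the denominator -/
noncomputable def Y1 (B x y : ℂ) : ℂ :=
  (-1 / 8) + (3 / 8) * B + (-1 / 2) * y + (1 / 2) * B * y + (-1 / 4) * x + (3 / 4) * B * x +
  (-1 / 8) * x * y + (-5 / 8) * B * x * y + (1 / 8) * x ^ 2 + (-3 / 8) * B * x ^ 2 +
  (-1 / 4) * x ^ 2 * y + (-1 / 4) * B * x ^ 2 * y + (1 / 8) * x ^ 3 + (-3 / 8) * B * x ^ 3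

/-- the certificate -/
noncomputable def NN (B x y : ℂ) : ℂ :=
  (-2 + 6 * B) * B ^ 6 + B ^ 3 * y + (2 + 10 * B) * B ^ 7 * x - x * y +
    (-5 + 4 * B) * B ^ 5 * x ^ 2 + B ^ 4 * x ^ 2 * y - 2 * B * B ^ 4 * x ^ 3 + 2 * B * B ^ 4 * x ^ 4

section cert

variable (B x y lam tau sig x1 y1 : ℂ)
  (hB : B ^ 2 = (B - 1) / 2) (hc : y ^ 2 + x * y = x ^ 3 - x ^ 2 - 2 * x - 1)
  (hd1 : x + (B + 1) / 2 ≠ 0) (hd3 : 2 * (B - 1) * x - 1 + 2 * B ≠ 0)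
  (hl : lam * (x + (B + 1) / 2) = y - (B + 1) / 4)
  (ht : tau * (2 * y + x) = 3 * x ^ 2 - 2 * x - 2 - y)
  (hs : sig * (2 * (B - 1) * x - 1 + 2 * B) = 2 * B * y - x - 1)
  (hx1 : x1 = B ^ 2 * (lam ^ 2 + lam + (2 * (1 - 2 * B) - 3) * B ^ 2))
  (hy1 : y1 = B ^ 3 * (2 * lam + 1) * x - B ^ 3 * lam ^ 3 -
    B ^ 4 * (2 * (1 - 2 * B) - 1) * (lam ^ 2 + lam) +
    2 * B * B ^ 5 * lam + 2 * B * B ^ 6 * (2 * (1 - 2 * B) - 3))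

include hB hc hd1 hl hx1 in
lemma cert1 : x1 * (x + (B + 1) / 2) = (B - 1) / 2 * x ^ 2 - B := by
  apply mul_right_cancel₀ hd1
  have h : x1 * (x + (B + 1) / 2) * (x + (B + 1) / 2) =
      B ^ 2 * ((lam * (x + (B + 1) / 2)) ^ 2 + (lam * (x + (B + 1) / 2)) * (x + (B + 1) / 2) +
        (2 * (1 - 2 * B) - 3) * B ^ 2 * (x + (B + 1) / 2) ^ 2) := by
    rw [hx1]
    ring
  rw [hl] at h
  linear_combination h +
    (1 * B ^ 2) * hc +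
    (
      1 * B + (-1 / 8) * B ^ 2 + (-19 / 8) * B ^ 3 + (-11 / 4) * B ^ 4 + (-1) * B ^ 5 +
      2 * B * x + (-5 / 2) * B ^ 2 * x + (-7) * B ^ 3 * x + (-4) * B ^ 4 * x +
      (-3) * B ^ 2 * x ^ 2 + (-4) * B ^ 3 * x ^ 2 +
      x ^ 2 * (x + (B + 1) / 2)) * hB

include hB hc hd1 hl hy1 in
lemma cert2 : y1 * (x + (B + 1) / 2) ^ 2 = Y1 B x y := by
  apply mul_right_cancel₀ hd1
  have h : y1 * (x + (B + 1) / 2) ^ 2 * (x + (B + 1) / 2) =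
      B ^ 3 * (2 * (lam * (x + (B + 1) / 2)) * (x + (B + 1) / 2) ^ 2 + (x + (B + 1) / 2) ^ 3) * x -
      B ^ 3 * (lam * (x + (B + 1) / 2)) ^ 3 -
      B ^ 4 * (2 * (1 - 2 * B) - 1) * ((lam * (x + (B + 1) / 2)) ^ 2 * (x + (B + 1) / 2) +
        (lam * (x + (B + 1) / 2)) * (x + (B + 1) / 2) ^ 2) +
      2 * B * B ^ 5 * (lam * (x + (B + 1) / 2)) * (x + (B + 1) / 2) ^ 2 +
      2 * B * B ^ 6 * (2 * (1 - 2 * B) - 3) * (x + (B + 1) / 2) ^ 3 := by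
    rw [hy1]
    ring
  rw [hl] at h
  unfold Y1
  linear_combination h +
    (
      (3 / 4) * B ^ 3 + (1 / 4) * B ^ 4 + (3 / 2) * B ^ 5 + 2 * B ^ 6 + (-1) * B ^ 3 * y +
      1 * B ^ 3 * x + (-1) * B ^ 4 * x + 4 * B ^ 5 * x) * hc +
    (
      (1 / 8) + (-1 / 8) * B + (-3 / 4) * B ^ 2 + (-63 / 32) * B ^ 3 + (-13 / 16) * B ^ 4 +
      (5 / 32) * B ^ 5 + (-3) * B ^ 6 + (-21 / 4) * B ^ 7 + (-15 / 4) * B ^ 8 + (-1) * B ^ 9 +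
      (1 / 2) * y + (1 / 2) * B * y + (-1) * B ^ 2 * y + (-3 / 8) * B ^ 3 * y +
      (7 / 8) * B ^ 4 * y + (5 / 4) * B ^ 5 * y + (1 / 2) * B ^ 6 * y + (1 / 2) * x +
      (-3 / 4) * B * x + (-5 / 2) * B ^ 2 * x + (-6) * B ^ 3 * x + (3 / 8) * B ^ 4 * x +
      (-19 / 8) * B ^ 5 * x + (-59 / 4) * B ^ 6 * x + (-33 / 2) * B ^ 7 * x + (-6) * B ^ 8 * x +
      (9 / 8) * x * y + (7 / 8) * B * x * y + (-3 / 4) * B ^ 2 * x * y + 1 * B ^ 3 * x * y +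
      3 * B ^ 4 * x * y + 2 * B ^ 5 * x * y + (3 / 8) * x ^ 2 + (-7 / 8) * B * x ^ 2 +
      (-5 / 4) * B ^ 2 * x ^ 2 + (-9 / 2) * B ^ 3 * x ^ 2 + 3 * B ^ 4 * x ^ 2 +
      (-8) * B ^ 5 * x ^ 2 + (-21) * B ^ 6 * x ^ 2 + (-12) * B ^ 7 * x ^ 2 + (1 / 2) * x ^ 2 * y +
      (9 / 4) * B * x ^ 2 * y + (3 / 2) * B ^ 2 * x ^ 2 * y + 1 * B ^ 3 * x ^ 2 * y +
      2 * B ^ 4 * x ^ 2 * y + (-3 / 8) * x ^ 3 + (5 / 8) * B * x ^ 3 + (7 / 4) * B ^ 2 * x ^ 3 +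
      2 * B ^ 3 * x ^ 3 + 3 * B ^ 4 * x ^ 3 + (-6) * B ^ 5 * x ^ 3 + (-8) * B ^ 6 * x ^ 3 +
      (1 / 2) * x ^ 3 * y + 1 * B * x ^ 3 * y + (-1 / 4) * x ^ 4 + (1 / 2) * B * x ^ 4 +
      1 * B ^ 2 * x ^ 4 + 4 * B ^ 3 * x ^ 4) * hB

include hB hc hd1 hd3 hl ht hs hx1 hy1 in
lemma cert3 : (x1 ^ 2 - x1 - y1 - 2 - B ^ 2 * (lam - B) ^ 2 * x1 -
    (B * (lam - tau) + B ^ 2 * (sig - 1) - 2 * B * B ^ 3)) *
      ((x + (B + 1) / 2) * (2 * y + x)) = 4 * NN B x y := by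
  have h1 := cert1 B x y lam x1 hB hc hd1 hl hx1
  have h2 := cert2 B x y lam y1 hB hc hd1 hl hy1
  have hne : (x + (B + 1) / 2) ^ 2 * (2 * (B - 1) * x - 1 + 2 * B) ≠ 0 :=
    mul_ne_zero (pow_ne_zero _ hd1) hd3
  apply mul_right_cancel₀ hne
  have h : (x1 ^ 2 - x1 - y1 - 2 - B ^ 2 * (lam - B) ^ 2 * x1 -
    (B * (lam - tau) + B ^ 2 * (sig - 1) - 2 * B * B ^ 3)) *
      ((x + (B + 1) / 2) * (2 * y + x)) *
        ((x + (B + 1) / 2) ^ 2 * (2 * (B - 1) * x - 1 + 2 * B)) =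
      ((x1 * (x + (B + 1) / 2)) ^ 2 * (x + (B + 1) / 2) -
        (x1 * (x + (B + 1) / 2)) * (x + (B + 1) / 2) ^ 2 -
        (y1 * (x + (B + 1) / 2) ^ 2) * (x + (B + 1) / 2) - 2 * (x + (B + 1) / 2) ^ 3 -
        B ^ 2 * ((lam * (x + (B + 1) / 2)) - B * (x + (B + 1) / 2)) ^ 2 *
          (x1 * (x + (B + 1) / 2)) -
        B * (lam * (x + (B + 1) / 2)) * (x + (B + 1) / 2) ^ 2 +
        B ^ 2 * (x + (B + 1) / 2) ^ 3 + 2 * B * B ^ 3 * (x + (B + 1) / 2) ^ 3) *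
          (2 * y + x) * (2 * (B - 1) * x - 1 + 2 * B) +
        B * (tau * (2 * y + x)) * (x + (B + 1) / 2) ^ 3 * (2 * (B - 1) * x - 1 + 2 * B) -
        B ^ 2 * (sig * (2 * (B - 1) * x - 1 + 2 * B)) * (x + (B + 1) / 2) ^ 3 * (2 * y + x) := by
    ring
  rw [h, h1, h2, hl, ht, hs]
  unfold Y1 NN
  linear_combination
    (
      (-1 / 2) + (3 / 2) * B + (1 / 2) * B ^ 2 + (-2) * B ^ 3 + (-3 / 2) * B ^ 4 +
      (-11 / 2) * B ^ 5 + (-9 / 2) * B ^ 6 + (-2) * B ^ 3 * y + 4 * B ^ 4 * y + (-17 / 8) * x +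
      (13 / 2) * B * x + (-9 / 8) * B ^ 2 * x + (-19 / 4) * B ^ 3 * x + (-1) * B ^ 4 * x +
      (-13) * B ^ 5 * x + (-4) * B ^ 6 * x + (-4) * B ^ 3 * x * y + 4 * B ^ 4 * x * y +
      (-11 / 4) * x ^ 2 + 8 * B * x ^ 2 + (-2) * B ^ 2 * x ^ 2 + (-25 / 4) * B ^ 3 * x ^ 2 +
      (-5 / 2) * B ^ 4 * x ^ 2 + (-8) * B ^ 5 * x ^ 2 + 2 * B ^ 6 * x ^ 2 +
      (-1) * B ^ 2 * x ^ 2 * y + 3 * B ^ 3 * x ^ 2 * y + (-2) * B ^ 4 * x ^ 2 * y +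
      (-3 / 2) * x ^ 3 + 2 * B * x ^ 3 + (3 / 2) * B ^ 2 * x ^ 3 + (-2) * B ^ 3 * x ^ 3 +
      (-8) * B ^ 4 * x ^ 3 + 3 * B ^ 5 * x ^ 3 + 2 * B ^ 6 * x ^ 3 + (-2) * B ^ 2 * x ^ 3 * y +
      4 * B ^ 3 * x ^ 3 * y + (-2) * B ^ 4 * x ^ 3 * y + (-1) * x ^ 4 + 2 * B ^ 2 * x ^ 4 +
      2 * B ^ 3 * x ^ 4 + (-7) * B ^ 4 * x ^ 4 + 4 * B ^ 5 * x ^ 4) * hc +
    (
      1 + (-3 / 2) * B + (-4) * B ^ 2 + (3 / 2) * B ^ 3 + 10 * B ^ 4 + 17 * B ^ 5 + 2 * B ^ 6 +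
      (-20) * B ^ 7 + (-12) * B ^ 8 + (3 / 4) * y + (7 / 4) * B * y + (-5) * B ^ 2 * y +
      (-13 / 4) * B ^ 3 * y + (15 / 4) * B ^ 4 * y + 6 * B ^ 5 * y + 2 * B ^ 6 * y +
      (53 / 8) * x + (-15 / 2) * B * x + (-83 / 4) * B ^ 2 * x + (5 / 4) * B ^ 3 * x +
      (347 / 8) * B ^ 4 * x + 88 * B ^ 5 * x + 7 * B ^ 6 * x + (-80) * B ^ 7 * x +
      (-56) * B ^ 8 * x + (-20) * B ^ 9 * x + 5 * x * y + 8 * B * x * y + (-24) * B ^ 2 * x * y +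
      (-5) * B ^ 3 * x * y + (41 / 2) * B ^ 4 * x * y + 15 * B ^ 5 * x * y + 2 * B ^ 6 * x * y +
      (73 / 4) * x ^ 2 + (-41 / 4) * B * x ^ 2 + (-209 / 4) * B ^ 2 * x ^ 2 +
      (-73 / 4) * B ^ 3 * x ^ 2 + 92 * B ^ 4 * x ^ 2 + (791 / 4) * B ^ 5 * x ^ 2 +
      (17 / 2) * B ^ 6 * x ^ 2 + (-143) * B ^ 7 * x ^ 2 + (-114) * B ^ 8 * x ^ 2 +
      (-20) * B ^ 9 * x ^ 2 + (87 / 8) * x ^ 2 * y + (71 / 8) * B * x ^ 2 * y +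
      (-257 / 8) * B ^ 2 * x ^ 2 * y + (13 / 2) * B ^ 3 * x ^ 2 * y +
      (217 / 8) * B ^ 4 * x ^ 2 * y + 7 * B ^ 5 * x ^ 2 * y + (-1 / 2) * B ^ 6 * x ^ 2 * y +
      (221 / 8) * x ^ 3 + (7 / 8) * B * x ^ 3 + (-1253 / 16) * B ^ 2 * x ^ 3 +
      (-209 / 4) * B ^ 3 * x ^ 3 + (2089 / 16) * B ^ 4 * x ^ 3 + (423 / 2) * B ^ 5 * x ^ 3 +
      (-9 / 4) * B ^ 6 * x ^ 3 + (-144) * B ^ 7 * x ^ 3 + (-80) * B ^ 8 * x ^ 3 + 7 * x ^ 3 * y +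
      (-4) * B * x ^ 3 * y + (-3 / 2) * B ^ 2 * x ^ 3 * y + (55 / 4) * B ^ 3 * x ^ 3 * y +
      (15 / 4) * B ^ 4 * x ^ 3 * y + (-19 / 4) * B ^ 5 * x ^ 3 * y +
      (-1 / 2) * B ^ 6 * x ^ 3 * y + (187 / 8) * x ^ 4 + (39 / 8) * B * x ^ 4 +
      (-551 / 8) * B ^ 2 * x ^ 4 + (-417 / 8) * B ^ 3 * x ^ 4 + (1047 / 8) * B ^ 4 * x ^ 4 +
      (581 / 8) * B ^ 5 * x ^ 4 + (-33 / 4) * B ^ 6 * x ^ 4 + (-80) * B ^ 7 * x ^ 4 +
      (-3) * x ^ 4 * y + (-11 / 2) * B * x ^ 4 * y + (43 / 2) * B ^ 2 * x ^ 4 * y +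
      (-11) * B ^ 4 * x ^ 4 * y + (-2) * B ^ 5 * x ^ 4 * y + (29 / 4) * x ^ 5 + (-7) * B * x ^ 5 +
      (-24) * B ^ 2 * x ^ 5 + (-23 / 2) * B ^ 3 * x ^ 5 + 66 * B ^ 4 * x ^ 5 +
      (-39) * B ^ 5 * x ^ 5 + (-4) * B ^ 6 * x ^ 5 + (-4) * x ^ 5 * y + 6 * B * x ^ 5 * y +
      7 * B ^ 2 * x ^ 5 * y + (-7) * B ^ 3 * x ^ 5 * y + (-2) * B ^ 4 * x ^ 5 * y +
      (-7 / 2) * x ^ 6 + (-13 / 2) * B * x ^ 6 + (17 / 2) * B ^ 2 * x ^ 6 +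
      (27 / 2) * B ^ 3 * x ^ 6 + (-7) * B ^ 4 * x ^ 6 + (-16) * B ^ 5 * x ^ 6 + (-2) * x ^ 6 * y +
      4 * B * x ^ 6 * y + (-2) * B ^ 2 * x ^ 6 * y + (-3) * x ^ 7 + 7 * B ^ 2 * x ^ 7 +
      12 * B ^ 3 * x ^ 7 + (-16) * B ^ 4 * x ^ 7) * hB

end cert

/-! ### The lattice -/

lemma conj_al : (starRingEnd ℂ) al = bl := by
  have h1 : (starRingEnd ℂ) al = 1 - al := by
    unfold al Pool.Agent.Y698.s7
    simp only [map_div₀, map_add, map_one, map_mul, Complex.conj_I, Complex.conj_ofReal,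
      map_ofNat]
    ring
  rw [h1]
  rfl

lemma al_add_bl : al + bl = 1 := by
  unfold bl
  ring

lemma conj_bl : (starRingEnd ℂ) bl = al := by
  rw [← conj_al, Complex.conj_conj]

section lattice

variable {L : PeriodPair} {Ω : ℂ} {z : ℂ}

lemma al_mem (hL : IsLat L RR Ω) (hz : z ∈ L.lattice) : al * z ∈ L.lattice := by
  have := hL.mul aR z hz
  rwa [aR_coe] at this

lemma bl_mem (hL : IsLat L RR Ω) (hz : z ∈ L.lattice) : bl * z ∈ L.lattice := by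
  have := hL.mul bR z hz
  rwa [bR_coe] at this

lemma two_nmem (hL : IsLat L RR Ω) (hz : Oz L z) : 2 * z ∉ L.lattice := by
  intro h
  obtain ⟨N, ⟨k, rfl⟩, hN⟩ := hz.tor
  apply hz.ne
  have h1 : (k : ℂ) * (2 * z) ∈ L.lattice := by
    have h2 := L.lattice.smul_mem (k : ℤ) h
    rw [zsmul_eq_mul] at h2
    exact_mod_cast h2
  have h3 : z = ((2 * k + 1 : ℕ) : ℂ) * z - (k : ℂ) * (2 * z) := by
    push_cast
    ring
  rw [h3]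
  exact L.lattice.sub_mem hN h1

lemma al_nmem (hL : IsLat L RR Ω) (hz : Oz L z) : al * z ∉ L.lattice := by
  intro h
  apply two_nmem hL hz
  have h1 := bl_mem hL h
  rwa [← mul_assoc, mul_comm bl al, al_mul_bl] at h1

lemma bl_nmem (hL : IsLat L RR Ω) (hz : Oz L z) : bl * z ∉ L.lattice := by
  intro h
  apply two_nmem hL hz
  have h1 := al_mem hL h
  rwa [← mul_assoc, al_mul_bl] at h1

lemma Oz_bl (hL : IsLat L RR Ω) (hz : Oz L z) : Oz L (bl * z) := by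
  refine ⟨bl_nmem hL hz, ?_⟩
  obtain ⟨N, hN, h⟩ := hz.tor
  refine ⟨N, hN, ?_⟩
  have h1 := bl_mem hL h
  have h2 : (N : ℂ) * (bl * z) = bl * ((N : ℂ) * z) := by ring
  rw [h2]
  exact h1

end lattice

/-- BKL-27 (K3). -/
theorem t_K3 : S_K3 := by
  intro hZB hBL hAL hM2 hDER hF1 hF2 L Ω q hD Γ _ v hv z hz
  have hL := hD.ld.lat
  have h2z := two_nmem hL hz
  have haz := al_nmem hL hz
  have hbz := bl_nmem hL hz
  have hOb := Oz_bl hL hz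
  obtain ⟨hx, hy⟩ := hF1 L Ω hD.ld Γ v hv z hz
  obtain ⟨hx1, hy1⟩ := hF1 L Ω hD.ld Γ v hv _ hOb
  obtain ⟨hS, -⟩ := hF2 hZB hBL hF1 L Ω q hD Γ v hv z hz
  obtain ⟨hS1, hk1⟩ := hF2 hZB hBL hF1 L Ω q hD Γ v hv _ hOb
  have cb : (starRingEnd ℂ) (bl * z) = al * (starRingEnd ℂ) z := by rw [map_mul, conj_bl]
  have ca : (starRingEnd ℂ) (al * z) = bl * (starRingEnd ℂ) z := by rw [map_mul, conj_al]
  have c2 : (starRingEnd ℂ) (2 * z) = 2 * (starRingEnd ℂ) z := by rw [map_mul, map_ofNat]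
  obtain ⟨b1, b2, b3, -, b5, b6⟩ := hBL hZB L Ω q hD.ld ((starRingEnd ℂ) z) z hbz
  obtain ⟨a1, a2⟩ := hAL hZB L Ω q hD.ld ((starRingEnd ℂ) z) z
  obtain ⟨a11, a12⟩ := a1 haz
  obtain ⟨a21, a22⟩ := a2 h2z
  obtain ⟨m1, m2⟩ := hM2 L Ω q hD.ld (bl * z) hbz
  have m3 := (hM2 L Ω q hD.ld (2 * z) h2z).1
  have m4 := (hM2 L Ω q hD.ld z hz.ne).1
  have m5 := (hM2 L Ω q hD.ld (al * z) haz).1
  have hc := (hDER L Ω q hD.ld z hz.ne).1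
  rw [cb] at hS1 hk1 m1 m2
  rw [c2] at m3
  rw [ca] at m5
  unfold N1
  rw [m2, m1, m3, m4, m5, a12, a22]
  unfold kw at hk1
  have hlw : lw L z (tB Ω) = (yw L z - yw L (tB Ω)) / (xw L z - xw L (tB Ω)) := rfl
  rw [b5, b6] at hlw
  -- the constants
  set B : ℂ := bl⁻¹ with hBdef
  have hbl0 := bl_ne
  have hbB : bl * B = 1 := mul_inv_cancel₀ hbl0
  have hal : al = 2 * B := by
    have h1 := al_mul_bl
    calc al = al * (bl * B) := by rw [hbB, mul_one]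
      _ = (al * bl) * B := by ring
      _ = 2 * B := by rw [h1]
  have hbl : bl = 1 - 2 * B := by
    have h1 := al_add_bl
    linear_combination h1 - hal
  have hB : B ^ 2 = (B - 1) / 2 := by
    rw [hbl] at hbB
    linear_combination (-1 / 2 : ℂ) * hbB
  have hvB : v B = 1 := by
    rw [hBdef, map_inv₀, v_bl hv, inv_one]
  have hv2 : v 2 < 1 := v_two_lt hv
  set x := xw L z with hxdef
  set y := yw L z with hydef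
  set x1 := xw L (bl * z) with hx1def
  set y1 := yw L (bl * z) with hy1def
  set S := Sw L q ((starRingEnd ℂ) z) z with hSdef
  set S1 := Sw L q (al * (starRingEnd ℂ) z) (bl * z) with hS1def
  set lam := lw L z (tB Ω) with hlamdef
  have hd1' : x - al * B ^ 2 = x + (B + 1) / 2 := by
    rw [hal]
    linear_combination (-2 * B - 1) * hB
  have hvd1 : v (x + (B + 1) / 2) = 1 := by
    rw [← hd1', Valuation.map_sub_eq_of_lt_left v, hx]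
    rw [hx, map_mul, map_pow, hvB, one_pow, mul_one]
    exact hv
  have hd1 : x + (B + 1) / 2 ≠ 0 := by
    intro h0
    rw [h0, map_zero] at hvd1
    exact zero_ne_one hvd1
  have hvd2 : v (2 * y + x) = 1 := by
    rw [Valuation.map_add_eq_of_lt_right v, hx]
    rw [hx, map_mul]
    calc v 2 * v y ≤ v 2 * 1 := mul_le_mul_right hy _
      _ = v 2 := mul_one _
      _ < 1 := hv2
  have hd3' : al ^ 2 * x - bl = 2 * (B - 1) * x - 1 + 2 * B := by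
    rw [hal, hbl]
    linear_combination (4 * x) * hB
  have hd3 : 2 * (B - 1) * x - 1 + 2 * B ≠ 0 := by
    rw [← hd3']
    exact a11
  have hl : lam * (x + (B + 1) / 2) = y - (B + 1) / 4 := by
    rw [hlw, hd1', div_mul_cancel₀ _ hd1]
    linear_combination (B + 1 / 2) * hB
  set tau := (3 * x ^ 2 - 2 * x - 2 - y) / (2 * y + x) with htaudef
  set sig := (al * y - x - 1) / (al ^ 2 * x - bl) with hsigdef
  have ht : tau * (2 * y + x) = 3 * x ^ 2 - 2 * x - 2 - y := div_mul_cancel₀ _ a21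
  have hs : sig * (2 * (B - 1) * x - 1 + 2 * B) = 2 * B * y - x - 1 := by
    rw [← hd3', hsigdef, div_mul_cancel₀ _ a11, hal]
  rw [hbl] at b2 b3
  rw [hal] at b3
  have h3 := cert3 B x y lam tau sig x1 y1 hB hc hd1 hd3 hl ht hs b2 b3
  have hS1' : S1 = B * (2 * S + lam - B) := by
    rw [← b1, ← mul_assoc, mul_comm B bl, hbB, one_mul]
  -- the rest
  obtain ⟨k1, hk1'⟩ : ∃ k1, k1 = (S1 ^ 2 - S1 - x1 + 1) / 2 := ⟨_, rfl⟩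
  rw [← hk1'] at hk1
  have hvl : v lam ≤ 1 := by
    have h4 : v lam * v (x + (B + 1) / 2) = v (y - (B + 1) / 4) := by rw [← map_mul, hl]
    rw [hvd1, mul_one] at h4
    have h5 : y - (B + 1) / 4 = y + B ^ 3 := by
      linear_combination (-B - 1 / 2) * hB
    rw [h4, h5]
    refine (v.map_add _ _).trans (max_le hy ?_)
    rw [map_pow, hvB, one_pow]
  have key : x1 ^ 2 - 2 * x1 * y1 + y1 - x1 - 4 * S1 * x1 ^ 2 + 4 * S1 * x1 + 4 * S1 - 2 -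
      2 * S1 ^ 2 * y1 + 2 * S1 * y1 - S1 ^ 2 * x1 -
      (S1 - 1 / 2 - B * (2 * S + tau - 1 / 2) - B * (S - 1 / 2) +
        B ^ 2 * (bl * S + sig - 1 / 2)) =
      4 * (NN B x y * ((x + (B + 1) / 2)⁻¹ * (2 * y + x)⁻¹) +
        (y1 - x1 * y1 - S1 * x1 ^ 2 + S1 * x1 + S1 - k1 * y1) -
          B ^ 2 * (S ^ 2 + S * (lam - B)) * x1) := by
    have h4 : x1 ^ 2 - x1 - y1 - 2 - B ^ 2 * (lam - B) ^ 2 * x1 -
        (B * (lam - tau) + B ^ 2 * (sig - 1) - 2 * B * B ^ 3) =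
        4 * (NN B x y * ((x + (B + 1) / 2)⁻¹ * (2 * y + x)⁻¹)) := by
      have h5 : (x + (B + 1) / 2) * (2 * y + x) ≠ 0 := mul_ne_zero hd1 a21
      apply mul_right_cancel₀ h5
      rw [h3]
      have h6 : (x + (B + 1) / 2)⁻¹ * (x + (B + 1) / 2) = 1 := inv_mul_cancel₀ hd1
      have h7 : (2 * y + x)⁻¹ * (2 * y + x) = 1 := inv_mul_cancel₀ a21
      generalize (x + (B + 1) / 2)⁻¹ = i1 at h6 ⊢
      generalize (2 * y + x)⁻¹ = i2 at h7 ⊢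
      linear_combination (-4 * NN B x y * (i2 * (2 * y + x))) * h6 + (-4 * NN B x y) * h7
    rw [hk1', hbl, hS1']
    linear_combination h4 + (2 * B * S - 2 * (B ^ 2 + (B - 1) / 2)) * hB
  rw [key, map_mul]
  have hmem : ∀ c : ℂ, v c ≤ 1 → ∃ c' : v.integer, (c' : ℂ) = c := fun c hc => ⟨⟨c, hc⟩, rfl⟩
  obtain ⟨x', ex⟩ := hmem x hx.le
  obtain ⟨y', ey⟩ := hmem y hy
  obtain ⟨x1', ex1⟩ := hmem x1 hx1.le
  obtain ⟨y1', ey1⟩ := hmem y1 hy1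
  obtain ⟨S', eS⟩ := hmem S hS
  obtain ⟨S1', eS1⟩ := hmem S1 hS1
  obtain ⟨k1', ek1⟩ := hmem k1 hk1
  obtain ⟨lam', elam⟩ := hmem lam hvl
  obtain ⟨B', eB⟩ := hmem B hvB.le
  obtain ⟨d1', ed1⟩ := hmem (x + (B + 1) / 2)⁻¹ (by rw [map_inv₀, hvd1, inv_one])
  obtain ⟨d2', ed2⟩ := hmem (2 * y + x)⁻¹ (by rw [map_inv₀, hvd2, inv_one])
  have hR : ∃ R : v.integer, (R : ℂ) = NN B x y * ((x + (B + 1) / 2)⁻¹ * (2 * y + x)⁻¹) +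
        (y1 - x1 * y1 - S1 * x1 ^ 2 + S1 * x1 + S1 - k1 * y1) -
          B ^ 2 * (S ^ 2 + S * (lam - B)) * x1 := by
    refine ⟨((-2 + 6 * B') * B' ^ 6 + B' ^ 3 * y' + (2 + 10 * B') * B' ^ 7 * x' - x' * y' +
      (-5 + 4 * B') * B' ^ 5 * x' ^ 2 + B' ^ 4 * x' ^ 2 * y' - 2 * B' * B' ^ 4 * x' ^ 3 +
        2 * B' * B' ^ 4 * x' ^ 4) * (d1' * d2') +
        (y1' - x1' * y1' - S1' * x1' ^ 2 + S1' * x1' + S1' - k1' * y1') -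
          B' ^ 2 * (S' ^ 2 + S' * (lam' - B')) * x1', ?_⟩
    rw [← ed1, ← ed2]
    unfold NN
    rw [← ex, ← ey, ← ex1, ← ey1, ← eS, ← eS1, ← ek1, ← elam, ← eB]
    have n2 : ((2 : v.integer) : ℂ) = 2 := rfl
    have n4 : ((4 : v.integer) : ℂ) = 4 := rfl
    have n5 : ((5 : v.integer) : ℂ) = 5 := rfl
    have n6 : ((6 : v.integer) : ℂ) = 6 := rfl
    have n10 : ((10 : v.integer) : ℂ) = 10 := rfl
    push_cast
    rw [n2, n4, n5, n6, n10]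
  obtain ⟨R, hR⟩ := hR
  rw [← hR]
  exact mul_le_of_le_one_right' R.2

end Pool.Agent.Q174.BKL
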